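import Mathlib

/-! Gamma ratios up to a relative error of order `k ^ (-2)`. -/

set_option autoImplicit false

namespace Q292.CFS

open Finset Filter Topology

/-- logarithmic ratio, third order -/
theorem log_ratio {u : ℝ} (h0 : 0 ≤ u) (h1 : u ≤ 1 / 2) :
    2 * u ≤ Real.log (1 + u) - Real.log (1 - u) ∧
      Real.log (1 + u) - Real.log (1 - u) ≤ 2 * u + u ^ 3 := by
  have hu : |u| < 1 := by rw [abs_of_nonneg h0]; linarith
  have h := Real.hasSum_log_sub_log_of_abs_lt_one hu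
  have hg : HasSum (fun k : ℕ => 2 * u * (u ^ 2) ^ k) (2 * u * (1 - u ^ 2)⁻¹) := by
    apply HasSum.mul_left
    apply hasSum_geometric_of_lt_one (by positivity)
    nlinarith
  constructor
  · have := le_hasSum h 0 (fun j _ => by positivity)
    simpa using this
  · -- compare the tail with a geometric series
    have hs : HasSum (fun k : ℕ => (2 : ℝ) * (1 / (2 * ((k + 1 : ℕ) : ℝ) + 1)) * u ^ (2 * (k + 1) + 1))
        (Real.log (1 + u) - Real.log (1 - u) - 2 * u) := by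
      have := (hasSum_nat_add_iff' 1).2 h
      simpa using this
    have hg2 : HasSum (fun k : ℕ => 2 / 3 * u ^ 3 * (u ^ 2) ^ k) (2 / 3 * u ^ 3 * (1 - u ^ 2)⁻¹) := by
      apply HasSum.mul_left
      apply hasSum_geometric_of_lt_one (by positivity)
      nlinarith
    have hle := hasSum_le (fun k => ?_) hs hg2
    · have h3 : (1 - u ^ 2)⁻¹ ≤ 3 / 2 := by
        rw [inv_le_comm₀ (by nlinarith) (by norm_num)]
        nlinarith
      have h4 : 2 / 3 * u ^ 3 * (1 - u ^ 2)⁻¹ ≤ 2 / 3 * u ^ 3 * (3 / 2) :=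
        mul_le_mul_of_nonneg_left h3 (by positivity)
      linarith
    · have e : u ^ (2 * (k + 1) + 1) = u ^ 3 * (u ^ 2) ^ k := by
        rw [← pow_mul, ← pow_add]; congr 1; ring
      rw [e]
      have h5 : (1 : ℝ) / (2 * ((k + 1 : ℕ) : ℝ) + 1) ≤ 1 / 3 := by
        apply one_div_le_one_div_of_le (by norm_num)
        push_cast
        have : (0 : ℝ) ≤ k := by positivity
        linarith
      have h6 : 0 ≤ u ^ 3 * (u ^ 2) ^ k := by positivity
      nlinarith

/-- the difference of two normalised logarithmic ratios -/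
theorem delta {α y : ℝ} (h0 : 0 < α) (h1 : α ≤ 1 / 2) (hy : 1 ≤ y) :
    |(Real.log (y + α) - Real.log (y - α)) - 2 * α * (Real.log (y + 1 / 2) - Real.log (y - 1 / 2))|
      ≤ 1 / (8 * y ^ 3) := by
  have hy0 : 0 < y := by linarith
  have key : ∀ β : ℝ, 0 ≤ β → β ≤ 1 / 2 →
      2 * (β / y) ≤ Real.log (y + β) - Real.log (y - β) ∧
      Real.log (y + β) - Real.log (y - β) ≤ 2 * (β / y) + (β / y) ^ 3 := by
    intro β hβ0 hβ1
    have hb : β / y ≤ 1 / 2 := by
      rw [div_le_iff₀ hy0]; linarith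
    have h := log_ratio (u := β / y) (by positivity) hb
    have e1 : Real.log (y + β) = Real.log y + Real.log (1 + β / y) := by
      rw [← Real.log_mul hy0.ne' (by positivity)]
      congr 1
      field_simp
    have e2 : Real.log (y - β) = Real.log y + Real.log (1 - β / y) := by
      rw [← Real.log_mul hy0.ne' (by linarith)]
      congr 1
      field_simp
    rw [e1, e2]
    constructor <;> linarith [h.1, h.2]
  obtain ⟨a1, a2⟩ := key α h0.le h1
  obtain ⟨b1, b2⟩ := key (1 / 2) (by norm_num) le_rfl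
  have hy3 : 0 < y ^ 3 := by positivity
  have e1 : (α / y) ^ 3 = α ^ 3 / y ^ 3 := by rw [div_pow]
  have e2 : (1 / 2 / y) ^ 3 = 1 / 8 / y ^ 3 := by rw [div_pow]; norm_num
  have e3 : 2 * (1 / 2 / y) = 1 / y := by field_simp
  rw [e1] at a2
  rw [e2] at b2
  rw [e3] at b1 b2
  have hα3 : α ^ 3 ≤ 1 / 8 := by
    calc α ^ 3 ≤ (1 / 2) ^ 3 := pow_le_pow_left₀ h0.le h1 3
      _ = 1 / 8 := by norm_num
  have e4 : 1 / (8 * y ^ 3) = 1 / 8 / y ^ 3 := by field_simp
  rw [e4, abs_le]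
  have c1 : 2 * α * (1 / y) = 2 * (α / y) := by ring
  have c2 : α ^ 3 / y ^ 3 ≤ 1 / 8 / y ^ 3 := div_le_div_of_nonneg_right hα3 hy3.le
  have c3 : 0 ≤ 1 / 8 / y ^ 3 := by positivity
  constructor
  · have h5 : 2 * α * (Real.log (y + 1 / 2) - Real.log (y - 1 / 2)) ≤
        2 * α * (1 / y + 1 / 8 / y ^ 3) := mul_le_mul_of_nonneg_left b2 (by linarith)
    nlinarith
  · have h5 : 2 * α * (1 / y) ≤ 2 * α * (Real.log (y + 1 / 2) - Real.log (y - 1 / 2)) :=
      mul_le_mul_of_nonneg_left b1 (by linarith)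
    linarith

/-- summing up increments of order `k ^ (-3)` -/
theorem tail_bound {f : ℕ → ℝ} (hf : Tendsto f atTop (𝓝 0))
    (h : ∀ k : ℕ, 1 ≤ k → |f (k + 1) - f k| ≤ 1 / (8 * (k : ℝ) ^ 3)) {k : ℕ} (hk : 1 ≤ k) :
    |f k| ≤ 1 / (4 * (k : ℝ) ^ 2) := by
  have hstep : ∀ j : ℕ, 1 ≤ j → 1 / (8 * (j : ℝ) ^ 3) ≤ 1 / (4 * (j : ℝ) ^ 2) -
      1 / (4 * ((j + 1 : ℕ) : ℝ) ^ 2) := by
    intro j hj
    have hj' : (1 : ℝ) ≤ j := by exact_mod_cast hj
    push_cast
    rw [div_sub_div _ _ (by positivity) (by positivity), div_le_div_iff₀ (by positivity)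
      (by positivity)]
    nlinarith [mul_nonneg (by linarith : (0 : ℝ) ≤ j) (by linarith : (0 : ℝ) ≤ (j : ℝ) - 1),
      pow_nonneg (by linarith : (0 : ℝ) ≤ (j : ℝ) - 1) 2, pow_nonneg (by linarith : (0 : ℝ) ≤ (j:ℝ)) 2,
      pow_nonneg (by linarith : (0 : ℝ) ≤ (j:ℝ)) 3, pow_nonneg (by linarith : (0 : ℝ) ≤ (j:ℝ)) 4]
  have hlim0 : Tendsto (fun j : ℕ => 1 / (4 * (j : ℝ) ^ 2)) atTop (𝓝 0) := by
    have h1 : Tendsto (fun j : ℕ => (4 : ℝ) * (j : ℝ) ^ 2) atTop atTop := by
      apply Tendsto.const_mul_atTop (by norm_num)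
      exact (tendsto_pow_atTop (by norm_num)).comp tendsto_natCast_atTop_atTop
    exact tendsto_const_nhds.div_atTop h1
  have anti : ∀ s : ℝ, (s = 1 ∨ s = -1) → ∀ n : ℕ,
      s * f (k + n) + 1 / (4 * ((k + n : ℕ) : ℝ) ^ 2) ≤ s * f k + 1 / (4 * (k : ℝ) ^ 2) := by
    intro s hs n
    induction n with
    | zero => simp
    | succ n ih =>
      refine le_trans ?_ ih
      have h1 := h (k + n) (by omega)
      have h2 := hstep (k + n) (by omega)
      have h3 : s * (f (k + n + 1) - f (k + n)) ≤ |f (k + n + 1) - f (k + n)| := by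
        rcases hs with rfl | rfl
        · rw [one_mul]; exact le_abs_self _
        · rw [neg_one_mul]; exact neg_le_abs _
      have e : k + (n + 1) = k + n + 1 := by ring
      rw [e]
      linarith
  have lim : ∀ s : ℝ, Tendsto (fun n : ℕ => s * f (k + n) + 1 / (4 * ((k + n : ℕ) : ℝ) ^ 2)) atTop
      (𝓝 0) := by
    intro s
    have h1 : Tendsto (fun n : ℕ => k + n) atTop atTop := tendsto_atTop_mono
      (fun n => Nat.le_add_left n k) tendsto_id
    have h2 := ((hf.comp h1).const_mul s).add (hlim0.comp h1)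
    simpa using h2
  have a1 := le_of_tendsto' (lim 1) (anti 1 (Or.inl rfl))
  have a2 := le_of_tendsto' (lim (-1)) (anti (-1) (Or.inr rfl))
  rw [abs_le]
  constructor <;> linarith

end Q292.CFS
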