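import Pool.Agent.Q292.CFS.Sum

/-! The first order correction as a limit. -/

set_option autoImplicit false

namespace Q292.CFS

open Finset Filter Topology MeasureTheory Asymptotics Pool.Agent.H980R4.Rate Pool.Agent.H31C
  Pool.Agent.H757R2.CardyLimit

theorem gd_cont {x : ℝ} (h0 : 0 < x) (h1 : x < 1) : ContinuousAt gd x := by
  unfold gd
  apply ContinuousAt.rpow_const
  · fun_prop
  · left
    have : 0 < x * (1 - x) := mul_pos h0 (by linarith)
    exact this.ne'

theorem F_strict {x : ℝ} (h0 : 0 < x) (h1 : x < 1) : HasStrictDerivAt F (gd x / BB) x := by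
  have hint : IntervalIntegrable gd volume 0 x := gd_int le_rfl h0.le h1.le
  have hmeas : StronglyMeasurableAtFilter gd (𝓝 x) volume := by
    have h : Measurable gd := by
      unfold gd
      fun_prop
    exact h.aestronglyMeasurable.stronglyMeasurableAtFilter
  have := intervalIntegral.integral_hasStrictDerivAt_right hint hmeas (gd_cont h0 h1)
  exact this.div_const BB

theorem first_order (x : ℝ) (a b : ℕ → ℕ) (h0 : 0 < x) (h1 : x < 1) (ha : ∀ n, 1 ≤ a n)
    (hb : ∀ n, 1 ≤ b n) (hpar : ∀ n, Even (a n + b n)) (hN : Tendsto (fun n => a n + b n) atTop atTop)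
    (hx : Tendsto (fun n => (a n : ℝ) / (a n + b n)) atTop (𝓝 x)) :
    Tendsto (fun n => ((a n : ℝ) + b n) *
      (Pool.Agent.H980R4.Rate.S (a n) (a n + b n + 1) - F ((a n : ℝ) / (a n + b n)))) atTop
      (𝓝 (2 / 3 * (1 - 2 * x) * (gd x / BB))) := by
  set N : ℕ → ℝ := fun n => (a n : ℝ) + b n with hNdef
  have hNlim : Tendsto N atTop atTop := by
    have := tendsto_natCast_atTop_atTop (R := ℝ).comp hN
    refine this.congr (fun n => ?_)
    simp [hNdef]
  have hNpos : ∀ n, 0 < N n := by
    intro n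
    have : (1 : ℝ) ≤ a n := by exact_mod_cast ha n
    have h2 : (0 : ℝ) ≤ b n := by positivity
    simp only [hNdef]; linarith
  set X : ℕ → ℝ := fun n => (a n : ℝ) / (a n + b n) with hX
  set Y : ℕ → ℝ := fun n => ((a n : ℝ) + 2 / 3) / (a n + b n + 4 / 3) with hY
  have hdiff : ∀ n, N n * (Y n - X n) = 2 / 3 * (1 - 2 * X n) * (N n / (N n + 4 / 3)) := by
    intro n
    have e1 : (a n : ℝ) + b n ≠ 0 := (hNpos n).ne'
    have e2 : (a n : ℝ) + b n + 4 / 3 ≠ 0 := by
      have := hNpos n
      simp only [hNdef] at this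
      linarith
    simp only [hNdef, hX, hY]
    field_simp
    ring
  have hr1 : Tendsto (fun n => N n / (N n + 4 / 3)) atTop (𝓝 1) := by
    have h2 : Tendsto (fun n => 1 - 4 / 3 / (N n + 4 / 3)) atTop (𝓝 (1 - 0)) := by
      apply Tendsto.const_sub
      apply tendsto_const_nhds.div_atTop
      exact tendsto_atTop_add_const_right _ _ hNlim
    rw [sub_zero] at h2
    refine h2.congr (fun n => ?_)
    have : N n + 4 / 3 ≠ 0 := by have := hNpos n; linarith
    rw [eq_div_iff this, sub_mul, div_mul_cancel₀ _ this]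
    ring
  have hl : Tendsto (fun n => N n * (Y n - X n)) atTop (𝓝 (2 / 3 * (1 - 2 * x))) := by
    have h2 := ((hx.const_mul 2).const_sub 1).const_mul (2 / 3)
    have h3 := h2.mul hr1
    rw [mul_one] at h3
    exact h3.congr (fun n => (hdiff n).symm)
  have hYX : Tendsto (fun n => Y n - X n) atTop (𝓝 0) := by
    have h2 := hl.mul (tendsto_inv_atTop_zero.comp hNlim)
    rw [mul_zero] at h2
    refine h2.congr (fun n => ?_)
    have := (hNpos n).ne'
    simp only [Function.comp]
    field_simp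
  have hYlim : Tendsto Y atTop (𝓝 x) := by
    have := hYX.add hx
    rw [zero_add] at this
    refine this.congr (fun n => ?_)
    simp only [hX]; ring
  -- strict differentiability
  have hs := (hasDerivAtFilter_iff_isLittleO.1 (F_strict h0 h1))
  have hpair : Tendsto (fun n => (Y n, X n)) atTop (𝓝 (x, x)) := hYlim.prodMk_nhds hx
  have ho := hs.comp_tendsto hpair
  have ho2 := (isBigO_refl N atTop).mul_isLittleO ho
  have ho3 : (fun n => N n * (Y n - X n)) =O[atTop] (fun _ => (1 : ℝ)) := hl.isBigO_one ℝ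
  have ho4 := ho2.trans_isBigO ho3
  rw [isLittleO_one_iff] at ho4
  -- main part
  have hmain : Tendsto (fun n => N n * (F (Y n) - F (X n))) atTop
      (𝓝 (2 / 3 * (1 - 2 * x) * (gd x / BB))) := by
    have h2 := ho4.add (hl.mul_const (gd x / BB))
    rw [zero_add] at h2
    refine h2.congr (fun n => ?_)
    simp only [Function.comp, smul_eq_mul]
    ring
  -- the error
  have herr : Tendsto (fun n => N n * (Pool.Agent.H980R4.Rate.S (a n) (a n + b n + 1) - F (Y n)))
      atTop (𝓝 0) := by
    set κ : ℝ := min x (1 - x) / 2 with hκ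
    have hκ0 : 0 < κ := by
      rw [hκ]; have : 0 < min x (1 - x) := lt_min h0 (by linarith)
      linarith
    have hmin : ∀ᶠ n in atTop, κ * N n ≤ ((min (a n) (b n) : ℕ) : ℝ) := by
      have h2 : ∀ᶠ n in atTop, X n ∈ Set.Ioo (x - κ) (x + κ) :=
        hx.eventually (Ioo_mem_nhds (by linarith) (by linarith))
      filter_upwards [h2] with n hn
      have e1 : X n * N n = a n := by
        simp only [hX]; exact div_mul_cancel₀ _ (hNpos n).ne'
      have e2 : (1 - X n) * N n = b n := by
        rw [sub_mul, e1, one_mul]; simp only [hNdef]; ring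
      have hNn := hNpos n
      have k1 : κ ≤ x - κ := by
        have := min_le_left x (1 - x); rw [hκ]; linarith
      have k2 : κ ≤ 1 - (x + κ) := by
        have := min_le_right x (1 - x); rw [hκ]; linarith
      rw [Nat.cast_min, le_min_iff]
      constructor
      · rw [← e1]; exact mul_le_mul_of_nonneg_right (by linarith [hn.1]) hNn.le
      · rw [← e2]; exact mul_le_mul_of_nonneg_right (by linarith [hn.2]) hNn.le
    have hz : Tendsto (fun n => 3 / 2 * κ ^ (-(5 / 3) : ℝ) * (N n)⁻¹) atTop (𝓝 0) := by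
      have := (tendsto_inv_atTop_zero.comp hNlim).const_mul (3 / 2 * κ ^ (-(5 / 3) : ℝ))
      rwa [mul_zero] at this
    apply squeeze_zero_norm' _ hz
    filter_upwards [hmin] with n hn
    have hc := corrected (ha n) (hb n) (hpar n)
    have hNn := hNpos n
    rw [Real.norm_eq_abs, abs_mul, abs_of_pos hNn]
    have p1 : ((min (a n) (b n) : ℕ) : ℝ) ^ (-(5 / 3) : ℝ) ≤ (κ * N n) ^ (-(5 / 3) : ℝ) :=
      Real.rpow_le_rpow_of_nonpos (by positivity) hn (by norm_num)
    rw [Real.mul_rpow hκ0.le hNn.le] at p1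
    have p2 : N n ^ (-(5 / 3) : ℝ) * N n ^ (-(1 / 3) : ℝ) * N n = (N n)⁻¹ := by
      rw [← Real.rpow_add hNn]
      nth_rewrite 2 [← Real.rpow_one (N n)]
      rw [← Real.rpow_add hNn, ← Real.rpow_neg_one]
      norm_num
    calc N n * |Pool.Agent.H980R4.Rate.S (a n) (a n + b n + 1) - F (Y n)|
        ≤ N n * (3 / 2 * (((min (a n) (b n) : ℕ) : ℝ) ^ (-(5 / 3) : ℝ) * N n ^ (-(1 / 3) : ℝ))) :=
          mul_le_mul_of_nonneg_left hc hNn.le
      _ ≤ N n * (3 / 2 * (κ ^ (-(5 / 3) : ℝ) * N n ^ (-(5 / 3) : ℝ) * N n ^ (-(1 / 3) : ℝ))) := by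
          apply mul_le_mul_of_nonneg_left _ hNn.le
          apply mul_le_mul_of_nonneg_left _ (by norm_num)
          exact mul_le_mul_of_nonneg_right p1 (by positivity)
      _ = 3 / 2 * κ ^ (-(5 / 3) : ℝ) * (N n ^ (-(5 / 3) : ℝ) * N n ^ (-(1 / 3) : ℝ) * N n) := by ring
      _ = _ := by rw [p2]
  have h6 := herr.add hmain
  rw [zero_add] at h6
  refine h6.congr (fun n => ?_)
  ring

end Q292.CFS
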