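import Pool.Agent.Q292.CFS.Gam
import Pool.Agent.H980R4.Rate4

/-! The weights of the beta-binomial law up to a relative error of order `k ^ (-2)`. -/

set_option autoImplicit false

namespace Q292.CFS

open Finset Filter Topology MeasureTheory Pool.Agent.H980R4.Rate Pool.Agent.H31C
  Pool.Agent.H757R2.CardyLimit

/-- the first ratio -/
noncomputable def g1 (k : ℕ) : ℝ := Real.Gamma ((k : ℝ) + 1 / 3) / Real.Gamma ((k : ℝ) + 1)

/-- the second ratio -/
noncomputable def g2 (k : ℕ) : ℝ := Real.Gamma ((k : ℝ) + 1) / Real.Gamma ((k : ℝ) + 2 / 3)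

theorem g1_pos (k : ℕ) : 0 < g1 k :=
  div_pos (Real.Gamma_pos_of_pos (by positivity)) (Real.Gamma_pos_of_pos (by positivity))

theorem g2_pos (k : ℕ) : 0 < g2 k :=
  div_pos (Real.Gamma_pos_of_pos (by positivity)) (Real.Gamma_pos_of_pos (by positivity))

theorem g1_succ (k : ℕ) : g1 (k + 1) = g1 k * (((k : ℝ) + 1 / 3) / ((k : ℝ) + 1)) := by
  unfold g1
  have e1 : ((k + 1 : ℕ) : ℝ) + 1 / 3 = ((k : ℝ) + 1 / 3) + 1 := by push_cast; ring
  have e2 : ((k + 1 : ℕ) : ℝ) + 1 = ((k : ℝ) + 1) + 1 := by push_cast; ring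
  have h1 : (0 : ℝ) < (k : ℝ) + 1 / 3 := by positivity
  have h2 : (0 : ℝ) < (k : ℝ) + 1 := by positivity
  have h3 := (Real.Gamma_pos_of_pos h2).ne'
  rw [e1, e2, Real.Gamma_add_one h1.ne', Real.Gamma_add_one h2.ne']
  field_simp

theorem g2_succ (k : ℕ) : g2 (k + 1) = g2 k * (((k : ℝ) + 1) / ((k : ℝ) + 2 / 3)) := by
  unfold g2
  have e1 : ((k + 1 : ℕ) : ℝ) + 2 / 3 = ((k : ℝ) + 2 / 3) + 1 := by push_cast; ring
  have e2 : ((k + 1 : ℕ) : ℝ) + 1 = ((k : ℝ) + 1) + 1 := by push_cast; ring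
  have h1 : (0 : ℝ) < (k : ℝ) + 2 / 3 := by positivity
  have h2 : (0 : ℝ) < (k : ℝ) + 1 := by positivity
  have h3 := (Real.Gamma_pos_of_pos h1).ne'
  rw [e1, e2, Real.Gamma_add_one h1.ne', Real.Gamma_add_one h2.ne']
  field_simp

/-- the logarithmic error of the first ratio -/
noncomputable def f1 (k : ℕ) : ℝ := Real.log (g1 k) + 2 / 3 * Real.log ((k : ℝ) + 1 / 6)

/-- the logarithmic error of the second ratio -/
noncomputable def f2 (k : ℕ) : ℝ := Real.log (g2 k) - 1 / 3 * Real.log ((k : ℝ) + 1 / 3)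

theorem cube_le {k : ℕ} (hk : 1 ≤ k) {y : ℝ} (hy : (k : ℝ) ≤ y) :
    1 / (8 * y ^ 3) ≤ 1 / (8 * (k : ℝ) ^ 3) := by
  have hk' : (1 : ℝ) ≤ k := by exact_mod_cast hk
  apply one_div_le_one_div_of_le (by positivity)
  have := pow_le_pow_left₀ (by linarith : (0 : ℝ) ≤ (k : ℝ)) hy 3
  linarith

theorem f1_step (k : ℕ) (hk : 1 ≤ k) : |f1 (k + 1) - f1 k| ≤ 1 / (8 * (k : ℝ) ^ 3) := by
  have hk' : (1 : ℝ) ≤ k := by exact_mod_cast hk
  have h := delta (α := 1 / 3) (y := (k : ℝ) + 2 / 3) (by norm_num) (by norm_num) (by linarith)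
  refine le_trans (le_of_eq ?_) (h.trans (cube_le hk (by linarith)))
  have e : f1 (k + 1) - f1 k = -((Real.log ((k : ℝ) + 2 / 3 + 1 / 3) - Real.log ((k : ℝ) + 2 / 3 - 1 / 3))
      - 2 * (1 / 3) * (Real.log ((k : ℝ) + 2 / 3 + 1 / 2) - Real.log ((k : ℝ) + 2 / 3 - 1 / 2))) := by
    unfold f1
    rw [g1_succ, Real.log_mul (g1_pos k).ne' (by positivity), Real.log_div (by positivity)
      (by positivity)]
    have a1 : (k : ℝ) + 2 / 3 + 1 / 3 = (k : ℝ) + 1 := by ring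
    have a2 : (k : ℝ) + 2 / 3 - 1 / 3 = (k : ℝ) + 1 / 3 := by ring
    have a3 : (k : ℝ) + 2 / 3 + 1 / 2 = ((k + 1 : ℕ) : ℝ) + 1 / 6 := by push_cast; ring
    have a4 : (k : ℝ) + 2 / 3 - 1 / 2 = (k : ℝ) + 1 / 6 := by ring
    rw [a1, a2, a3, a4]
    ring
  rw [e, abs_neg]

theorem f2_step (k : ℕ) (hk : 1 ≤ k) : |f2 (k + 1) - f2 k| ≤ 1 / (8 * (k : ℝ) ^ 3) := by
  have hk' : (1 : ℝ) ≤ k := by exact_mod_cast hk
  have h := delta (α := 1 / 6) (y := (k : ℝ) + 5 / 6) (by norm_num) (by norm_num) (by linarith)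
  refine le_trans (le_of_eq ?_) (h.trans (cube_le hk (by linarith)))
  have e : f2 (k + 1) - f2 k = (Real.log ((k : ℝ) + 5 / 6 + 1 / 6) - Real.log ((k : ℝ) + 5 / 6 - 1 / 6))
      - 2 * (1 / 6) * (Real.log ((k : ℝ) + 5 / 6 + 1 / 2) - Real.log ((k : ℝ) + 5 / 6 - 1 / 2)) := by
    unfold f2
    rw [g2_succ, Real.log_mul (g2_pos k).ne' (by positivity), Real.log_div (by positivity)
      (by positivity)]
    have a1 : (k : ℝ) + 5 / 6 + 1 / 6 = (k : ℝ) + 1 := by ring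
    have a2 : (k : ℝ) + 5 / 6 - 1 / 6 = (k : ℝ) + 2 / 3 := by ring
    have a3 : (k : ℝ) + 5 / 6 + 1 / 2 = ((k + 1 : ℕ) : ℝ) + 1 / 3 := by push_cast; ring
    have a4 : (k : ℝ) + 5 / 6 - 1 / 2 = (k : ℝ) + 1 / 3 := by ring
    rw [a1, a2, a3, a4]
    ring
  rw [e]

theorem lim_log (a b : ℝ) (ha : 0 ≤ a) (hb : 0 ≤ b) :
    Tendsto (fun k : ℕ => Real.log ((k : ℝ) + a) - Real.log ((k : ℝ) + b)) atTop (𝓝 0) := by
  have h1 : Tendsto (fun k : ℕ => 1 + (a - b) * (1 / ((k : ℝ) + b))) atTop (𝓝 (1 + (a - b) * 0)) := by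
    apply Tendsto.const_add
    apply Tendsto.const_mul
    apply tendsto_const_nhds.div_atTop
    exact tendsto_atTop_add_const_right _ _ tendsto_natCast_atTop_atTop
  rw [mul_zero, add_zero] at h1
  have h2 := (Real.continuousAt_log (one_ne_zero)).tendsto.comp h1
  rw [Real.log_one] at h2
  refine h2.congr' ?_
  filter_upwards [eventually_gt_atTop 0] with k hk
  have hk' : (0 : ℝ) < k := by exact_mod_cast hk
  simp only [Function.comp]
  rw [← Real.log_div (by positivity) (by positivity)]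
  congr 1
  have : (k : ℝ) + b ≠ 0 := by positivity
  field_simp
  ring

theorem f1_lim : Tendsto f1 atTop (𝓝 0) := by
  have l1 := (lim_log (1 / 6) 1 (by norm_num) (by norm_num)).const_mul (2 / 3)
  have l2 := (lim_log (1 / 6) 0 (by norm_num) (by norm_num)).const_mul (2 / 3)
  rw [mul_zero] at l1 l2
  apply tendsto_of_tendsto_of_tendsto_of_le_of_le' l1 l2
  · filter_upwards [eventually_ge_atTop 1] with k hk
    have hk' : (1 : ℝ) ≤ k := by exact_mod_cast hk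
    have h := le_ratio hk'
    have h2 := Real.log_le_log (by positivity) h
    rw [Real.log_rpow (by positivity)] at h2
    unfold f1 g1
    linarith
  · filter_upwards [eventually_ge_atTop 1] with k hk
    have hk' : (1 : ℝ) ≤ k := by exact_mod_cast hk
    have h := ratio_le hk'
    have h2 := Real.log_le_log (g1_pos k) h
    rw [Real.log_rpow (by positivity)] at h2
    unfold f1
    rw [add_zero]
    linarith

theorem f2_lim : Tendsto f2 atTop (𝓝 0) := by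
  have l1 := (lim_log 0 (1 / 3) (by norm_num) (by norm_num)).const_mul (1 / 3)
  have l2 := (lim_log 1 (1 / 3) (by norm_num) (by norm_num)).const_mul (1 / 3)
  rw [mul_zero] at l1 l2
  apply tendsto_of_tendsto_of_tendsto_of_le_of_le' l1 l2
  · filter_upwards [eventually_ge_atTop 1] with k hk
    have hk' : (1 : ℝ) ≤ k := by exact_mod_cast hk
    have h := le_ratio3 hk'
    have h2 := Real.log_le_log (by positivity) h
    rw [Real.log_rpow (by positivity)] at h2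
    unfold f2 g2
    rw [add_zero]
    linarith
  · filter_upwards [eventually_ge_atTop 1] with k hk
    have hk' : (1 : ℝ) ≤ k := by exact_mod_cast hk
    have h := ratio3_le hk'
    have h2 := Real.log_le_log (g2_pos k) h
    rw [Real.log_rpow (by positivity)] at h2
    unfold f2
    linarith

theorem f1_bd {k : ℕ} (hk : 1 ≤ k) : |f1 k| ≤ 1 / (4 * (k : ℝ) ^ 2) := tail_bound f1_lim f1_step hk
theorem f2_bd {k : ℕ} (hk : 1 ≤ k) : |f2 k| ≤ 1 / (4 * (k : ℝ) ^ 2) := tail_bound f2_lim f2_step hk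

/-- the main term of the weights -/
noncomputable def mt (k m : ℝ) : ℝ :=
  (k + 1 / 6) ^ (-(2 / 3) : ℝ) * (m + 1 / 6) ^ (-(2 / 3) : ℝ) * (k + m + 1 / 3) ^ (1 / 3 : ℝ)

theorem mt_pos {k m : ℝ} (hk : 0 ≤ k) (hm : 0 ≤ m) : 0 < mt k m := by
  unfold mt; positivity

theorem bw_main {k m : ℕ} (hk : 1 ≤ k) (hkm : k ≤ m) :
    |bw (k + m) k * BB - mt k m| ≤ 3 / (2 * (k : ℝ) ^ 2) * mt k m := by
  have hk' : (1 : ℝ) ≤ k := by exact_mod_cast hk
  have hkm' : (k : ℝ) ≤ m := by exact_mod_cast hkm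
  have e1 : bw (k + m) k * BB = Real.exp (f1 k + f1 m + f2 (k + m)) * mt k m := by
    rw [bw_mul]
    have h1 : Real.exp (f1 k) * ((k : ℝ) + 1 / 6) ^ (-(2 / 3) : ℝ) = g1 k := by
      unfold f1
      rw [Real.exp_add, Real.exp_log (g1_pos k), Real.rpow_def_of_pos (by positivity), mul_assoc,
        ← Real.exp_add]
      have : 2 / 3 * Real.log ((k : ℝ) + 1 / 6) + Real.log ((k : ℝ) + 1 / 6) * -(2 / 3) = 0 := by ring
      rw [this, Real.exp_zero, mul_one]
    have h2 : Real.exp (f1 m) * ((m : ℝ) + 1 / 6) ^ (-(2 / 3) : ℝ) = g1 m := by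
      unfold f1
      rw [Real.exp_add, Real.exp_log (g1_pos m), Real.rpow_def_of_pos (by positivity), mul_assoc,
        ← Real.exp_add]
      have : 2 / 3 * Real.log ((m : ℝ) + 1 / 6) + Real.log ((m : ℝ) + 1 / 6) * -(2 / 3) = 0 := by ring
      rw [this, Real.exp_zero, mul_one]
    have h3 : Real.exp (f2 (k + m)) * ((k : ℝ) + m + 1 / 3) ^ (1 / 3 : ℝ) = g2 (k + m) := by
      unfold f2
      have e : (((k + m : ℕ) : ℝ)) = (k : ℝ) + m := by push_cast; ring
      rw [e, Real.exp_sub, Real.exp_log (g2_pos _), Real.rpow_def_of_pos (by positivity)]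
      have : 1 / 3 * Real.log ((k : ℝ) + m + 1 / 3) = Real.log ((k : ℝ) + m + 1 / 3) * (1 / 3) := by
        ring
      rw [this, div_mul_cancel₀ _ (Real.exp_pos _).ne']
    have e0 : Real.exp (f1 k + f1 m + f2 (k + m)) * mt k m =
        (Real.exp (f1 k) * ((k : ℝ) + 1 / 6) ^ (-(2 / 3) : ℝ)) *
        (Real.exp (f1 m) * ((m : ℝ) + 1 / 6) ^ (-(2 / 3) : ℝ)) *
        (Real.exp (f2 (k + m)) * ((k : ℝ) + m + 1 / 3) ^ (1 / 3 : ℝ)) := by
      rw [Real.exp_add, Real.exp_add]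
      unfold mt
      ring
    rw [e0, h1, h2, h3]
    unfold g1 g2
    rfl
  have hmt := mt_pos (k := (k : ℝ)) (m := (m : ℝ)) (by linarith) (by linarith)
  have hk2 : 1 / (4 * (k : ℝ) ^ 2) ≤ 1 / 4 := by
    rw [div_le_div_iff₀ (by positivity) (by norm_num)]
    nlinarith
  have b1 := f1_bd hk
  have b2 := f1_bd (k := m) (by omega)
  have b3 := f2_bd (k := k + m) (by omega)
  have b2' : 1 / (4 * (m : ℝ) ^ 2) ≤ 1 / (4 * (k : ℝ) ^ 2) := by
    apply one_div_le_one_div_of_le (by positivity)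
    nlinarith
  have b3' : 1 / (4 * ((k + m : ℕ) : ℝ) ^ 2) ≤ 1 / (4 * (k : ℝ) ^ 2) := by
    apply one_div_le_one_div_of_le (by positivity)
    push_cast
    nlinarith
  have hθ : |f1 k + f1 m + f2 (k + m)| ≤ 3 * (1 / (4 * (k : ℝ) ^ 2)) := by
    have := abs_add_three (f1 k) (f1 m) (f2 (k + m))
    linarith
  have hexp : |Real.exp (f1 k + f1 m + f2 (k + m)) - 1| ≤ 2 * |f1 k + f1 m + f2 (k + m)| := by
    apply Real.abs_exp_sub_one_le
    linarith
  rw [e1]
  have e2 : Real.exp (f1 k + f1 m + f2 (k + m)) * mt k m - mt k m =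
      (Real.exp (f1 k + f1 m + f2 (k + m)) - 1) * mt k m := by ring
  rw [e2, abs_mul, abs_of_pos hmt]
  apply mul_le_mul_of_nonneg_right _ hmt.le
  have e3 : 3 / (2 * (k : ℝ) ^ 2) = 2 * (3 * (1 / (4 * (k : ℝ) ^ 2))) := by field_simp; ring
  rw [e3]
  linarith

end Q292.CFS
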