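import Pool.Agent.Q292.CFS.Loc

/-! Midpoint rule for the density, and the comparison of the distribution functions. -/

set_option autoImplicit false

namespace Q292.CFS

open Finset Filter Topology MeasureTheory Pool.Agent.H980R4.Rate Pool.Agent.H31C
  Pool.Agent.H757R2.CardyLimit

theorem taylor {s : ℝ} (hs : |s| ≤ 1 / 2) : |(1 + s) ^ (-(2 / 3) : ℝ) - 1 + 2 / 3 * s| ≤ 4 * s ^ 2 := by
  have hs' := abs_le.1 hs
  have hpos : 0 < 1 + s := by linarith [hs'.1]
  -- logarithm
  have hl : |Real.log (1 + s) - s| ≤ 2 * s ^ 2 := by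
    have h := Real.abs_log_sub_add_sum_range_le (x := -s) (by rw [abs_neg]; linarith) 1
    simp only [sum_range_one, zero_add, pow_one, abs_neg, sub_neg_eq_add] at h
    have e : -s / ((0 : ℕ) + 1 : ℝ) + Real.log (1 + s) = Real.log (1 + s) - s := by
      push_cast; ring
    rw [e] at h
    refine h.trans ?_
    rw [div_le_iff₀ (by linarith), ← sq_abs s]
    have h0 : 0 ≤ |s| := abs_nonneg s
    have h1 : 0 ≤ |s| ^ 2 * (1 - 2 * |s|) := mul_nonneg (sq_nonneg _) (by linarith)
    have h2 : |s| ^ (1 + 1) = |s| ^ 2 := by norm_num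
    rw [h2]
    linarith
  set x := -(2 / 3) * Real.log (1 + s) with hx
  have e1 : (1 + s) ^ (-(2 / 3) : ℝ) = Real.exp x := by
    rw [Real.rpow_def_of_pos hpos, hx]; congr 1; ring
  have hx1 : |x + 2 / 3 * s| ≤ 4 / 3 * s ^ 2 := by
    have : x + 2 / 3 * s = -(2 / 3) * (Real.log (1 + s) - s) := by rw [hx]; ring
    rw [this, abs_mul]
    norm_num
    linarith
  have hs2 : s ^ 2 ≤ 1 / 2 * |s| := by
    rw [← sq_abs]
    have : 0 ≤ |s| := abs_nonneg s
    nlinarith
  have hx2 : |x| ≤ 4 / 3 * |s| := by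
    have h1 : |x| ≤ |x + 2 / 3 * s| + |2 / 3 * s| := by
      have := abs_sub (x + 2 / 3 * s) (2 / 3 * s)
      simpa using this
    have h2 : |2 / 3 * s| = 2 / 3 * |s| := by rw [abs_mul]; norm_num
    rw [h2] at h1
    linarith
  have hx3 : |x| ≤ 1 := by linarith
  have h3 := Real.abs_exp_sub_one_sub_id_le hx3
  have h4 : x ^ 2 ≤ 16 / 9 * s ^ 2 := by
    rw [← sq_abs x, ← sq_abs s]
    have := abs_nonneg x
    have := abs_nonneg s
    nlinarith
  rw [e1]
  have e2 : Real.exp x - 1 + 2 / 3 * s = (Real.exp x - 1 - x) + (x + 2 / 3 * s) := by ring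
  rw [e2]
  have h5 := abs_add_le (Real.exp x - 1 - x) (x + 2 / 3 * s)
  have h6 : 0 ≤ s ^ 2 := sq_nonneg s
  linarith

theorem second_diff {c t : ℝ} (hc : 0 < c) (hc2 : c ≤ 1 / 2) (ht : 0 ≤ t) (htc : t ≤ 3 / 7 * c) :
    |gd (c + t) + gd (c - t) - 2 * gd c| ≤ 10 * (t / c) ^ 2 * gd c := by
  set u := t / c with hu
  set w := t / (1 - c) with hw
  have h1c : 0 < 1 - c := by linarith
  have hu0 : 0 ≤ u := by positivity
  have hw0 : 0 ≤ w := by positivity
  have hu1 : u ≤ 3 / 7 := by rw [hu, div_le_iff₀ hc]; exact htc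
  have hwu : w ≤ u := by
    rw [hu, hw]
    apply div_le_div_of_nonneg_left ht hc; linarith
  have hB : 0 < c * (1 - c) := by positivity
  have hp1 : 0 < (1 + u) * (1 - w) := by
    apply mul_pos <;> linarith
  have hp2 : 0 < (1 - u) * (1 + w) := by
    apply mul_pos <;> linarith
  have huc : u * c = t := by rw [hu]; field_simp
  have hwc : w * (1 - c) = t := by rw [hw]; field_simp
  have e1 : gd (c + t) = gd c * (1 + (u - w - u * w)) ^ (-(2 / 3) : ℝ) := by
    unfold gd
    have : (c + t) * (1 - (c + t)) = (c * (1 - c)) * ((1 + u) * (1 - w)) := by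
      calc (c + t) * (1 - (c + t)) = (c + t) * ((1 - c) - t) := by ring
        _ = (c + u * c) * ((1 - c) - w * (1 - c)) := by rw [huc, hwc]
        _ = _ := by ring
    rw [this, Real.mul_rpow hB.le hp1.le]
    congr 2
    ring
  have e2 : gd (c - t) = gd c * (1 + (-u + w - u * w)) ^ (-(2 / 3) : ℝ) := by
    unfold gd
    have : (c - t) * (1 - (c - t)) = (c * (1 - c)) * ((1 - u) * (1 + w)) := by
      calc (c - t) * (1 - (c - t)) = (c - t) * ((1 - c) + t) := by ring
        _ = (c - u * c) * ((1 - c) + w * (1 - c)) := by rw [huc, hwc]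
        _ = _ := by ring
    rw [this, Real.mul_rpow hB.le hp2.le]
    congr 2
    ring
  have hg : 0 < gd c := Real.rpow_pos_of_pos hB _
  have huw : 0 ≤ u * w := by positivity
  have huw2 : u * w ≤ u ^ 2 := by nlinarith
  have hs1 : |u - w - u * w| ≤ u := by
    rw [abs_le]; constructor <;> nlinarith
  have hs2 : |-u + w - u * w| ≤ u := by
    rw [abs_le]; constructor <;> nlinarith
  have t1 := taylor (s := u - w - u * w) (by linarith)
  have t2 := taylor (s := -u + w - u * w) (by linarith)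
  have q1 : (u - w - u * w) ^ 2 ≤ u ^ 2 := by
    rw [← sq_abs (u - w - u * w)]; exact pow_le_pow_left₀ (abs_nonneg _) hs1 2
  have q2 : (-u + w - u * w) ^ 2 ≤ u ^ 2 := by
    rw [← sq_abs (-u + w - u * w)]; exact pow_le_pow_left₀ (abs_nonneg _) hs2 2
  set X := (1 + (u - w - u * w)) ^ (-(2 / 3) : ℝ) with hX
  set X' := (1 + (-u + w - u * w)) ^ (-(2 / 3) : ℝ) with hX'
  have h3 : |X + X' - 2| ≤ 10 * u ^ 2 := by
    rw [abs_le] at t1 t2 ⊢
    constructor
    · nlinarith [t1.1, t2.1]
    · nlinarith [t1.2, t2.2]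
  have e3 : gd (c + t) + gd (c - t) - 2 * gd c = (X + X' - 2) * gd c := by
    rw [e1, e2]; ring
  rw [e3, abs_mul, abs_of_pos hg]
  exact mul_le_mul_of_nonneg_right h3 hg.le

theorem midpoint {c η : ℝ} (hc : 0 < c) (hc2 : c ≤ 1 / 2) (hη : 0 ≤ η) (hηc : η ≤ 3 / 7 * c) :
    |(∫ t in (c - η)..(c + η), gd t) - 2 * η * gd c| ≤ η * (10 * (η / c) ^ 2 * gd c) := by
  have hg : 0 < gd c := Real.rpow_pos_of_pos (by nlinarith : 0 < c * (1 - c)) _
  have i1 : IntervalIntegrable gd volume (c - η) c := gd_int (by linarith) (by linarith) (by linarith)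
  have i2 : IntervalIntegrable gd volume c (c + η) := gd_int (by linarith) (by linarith) (by linarith)
  have e1 : ∫ t in (c - η)..c, gd t = ∫ t in (0 : ℝ)..η, gd (c - t) := by
    rw [intervalIntegral.integral_comp_sub_left (fun t => gd t) c, sub_zero]
  have e2 : ∫ t in c..(c + η), gd t = ∫ t in (0 : ℝ)..η, gd (c + t) := by
    rw [intervalIntegral.integral_comp_add_left (fun t => gd t) c, add_zero]
  have j1 : IntervalIntegrable (fun t => gd (c - t)) volume 0 η := by
    have := i1.comp_sub_left c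
    simp only [sub_sub_cancel, sub_self] at this
    exact this.symm
  have j2 : IntervalIntegrable (fun t => gd (c + t)) volume 0 η := by
    have := i2.comp_add_left c
    simpa using this
  rw [← intervalIntegral.integral_add_adjacent_intervals i1 i2, e1, e2,
    ← intervalIntegral.integral_add j1 j2]
  have e3 : 2 * η * gd c = ∫ _t in (0 : ℝ)..η, 2 * gd c := by
    rw [intervalIntegral.integral_const, smul_eq_mul, sub_zero]; ring
  rw [e3, ← intervalIntegral.integral_sub (j1.add j2) intervalIntegrable_const]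
  have h := intervalIntegral.norm_integral_le_of_norm_le_const (a := 0) (b := η)
    (C := 10 * (η / c) ^ 2 * gd c)
    (f := fun t => gd (c - t) + gd (c + t) - 2 * gd c) (fun t ht => by
      rw [Set.uIoc_of_le hη] at ht
      rw [Real.norm_eq_abs]
      have h1 := second_diff hc hc2 ht.1.le (ht.2.trans hηc)
      have h2 : gd (c - t) + gd (c + t) - 2 * gd c = gd (c + t) + gd (c - t) - 2 * gd c := by ring
      rw [h2]
      refine h1.trans ?_
      apply mul_le_mul_of_nonneg_right _ hg.le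
      apply mul_le_mul_of_nonneg_left _ (by norm_num)
      apply pow_le_pow_left₀ (div_nonneg ht.1.le hc.le)
      exact div_le_div_of_nonneg_right ht.2 hc.le)
  rw [Real.norm_eq_abs, sub_zero, abs_of_nonneg hη] at h
  linarith

end Q292.CFS
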