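import Pool.Agent.Q292.CFS.Mid

/-! The beta-binomial distribution function with the correction of the first order. -/

set_option autoImplicit false

namespace Q292.CFS

open Finset Filter Topology MeasureTheory Pool.Agent.H980R4.Rate Pool.Agent.H31C
  Pool.Agent.H757R2.CardyLimit

theorem loc {k m : ℕ} (hk : 1 ≤ k) (hkm : k ≤ m) :
    |bw (k + m) k * BB - ∫ t in (((k : ℝ) - 1 / 3) / (k + m + 1 / 3))..(((k : ℝ) + 2 / 3) / (k + m + 1 / 3)),
      gd t| ≤ 5 * (k : ℝ) ^ (-(8 / 3) : ℝ) * ((k : ℝ) + m + 1 / 3) ^ (-(1 / 3) : ℝ) := by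
  have hk' : (1 : ℝ) ≤ k := by exact_mod_cast hk
  have hkm' : (k : ℝ) ≤ m := by exact_mod_cast hkm
  set M : ℝ := (k : ℝ) + m + 1 / 3 with hM
  have hMpos : 0 < M := by rw [hM]; positivity
  set c : ℝ := ((k : ℝ) + 1 / 6) / M with hc
  set η : ℝ := 1 / (2 * M) with hη
  have hcpos : 0 < c := by rw [hc]; positivity
  have hc2 : c ≤ 1 / 2 := by
    rw [hc, div_le_iff₀ hMpos, hM]; linarith
  have hηpos : 0 ≤ η := by rw [hη]; positivity
  have hηc : η ≤ 3 / 7 * c := by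
    rw [hη, hc, ← mul_div_assoc, div_le_div_iff₀ (by positivity) hMpos]
    nlinarith
  have hratio : (η / c) ^ 2 ≤ 1 / (4 * (k : ℝ) ^ 2) := by
    have e : η / c = 1 / (2 * ((k : ℝ) + 1 / 6)) := by
      rw [hη, hc]; field_simp
    rw [e, div_pow, one_pow]
    apply one_div_le_one_div_of_le (by positivity)
    nlinarith
  have hgd : gd c / M = mt k m := by
    have e1 : c * (1 - c) = (((k : ℝ) + 1 / 6) * ((m : ℝ) + 1 / 6)) / (M * M) := by
      rw [hc]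
      have : 1 - ((k : ℝ) + 1 / 6) / M = ((m : ℝ) + 1 / 6) / M := by
        rw [eq_div_iff hMpos.ne', sub_mul, div_mul_cancel₀ _ hMpos.ne', hM]; ring
      rw [this]
      field_simp
    have e2 : gd c = (((k : ℝ) + 1 / 6) * ((m : ℝ) + 1 / 6)) ^ (-(2 / 3) : ℝ) * (M * M) ^ (2 / 3 : ℝ) := by
      unfold gd
      rw [e1, Real.div_rpow (by positivity) (by positivity), Real.rpow_neg (by positivity : 0 ≤ M * M),
        div_inv_eq_mul]
    rw [e2, Real.mul_rpow (by positivity) (by positivity), Real.mul_rpow hMpos.le hMpos.le]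
    have e3 : M ^ (2 / 3 : ℝ) * M ^ (2 / 3 : ℝ) / M = M ^ (1 / 3 : ℝ) := by
      rw [← Real.rpow_add hMpos]
      nth_rewrite 2 [← Real.rpow_one M]
      rw [← Real.rpow_sub hMpos]
      norm_num
    unfold mt
    rw [← e3]
    ring
  have hlow : c - η = ((k : ℝ) - 1 / 3) / M := by
    rw [hc, hη]; field_simp; ring
  have hup : c + η = ((k : ℝ) + 2 / 3) / M := by
    rw [hc, hη]; field_simp; ring
  have h1 := midpoint hcpos hc2 hηpos hηc
  have h2 := bw_main hk hkm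
  rw [hlow, hup] at h1
  have hmt := mt_pos (k := (k : ℝ)) (m := (m : ℝ)) (by linarith) (by linarith)
  have e4 : 2 * η * gd c = mt k m := by
    rw [← hgd, hη]; field_simp
  have e5 : η * (10 * (η / c) ^ 2 * gd c) ≤ 5 / (4 * (k : ℝ) ^ 2) * mt k m := by
    have : η * (10 * (η / c) ^ 2 * gd c) = 5 * (η / c) ^ 2 * (2 * η * gd c) := by ring
    rw [this, e4]
    apply mul_le_mul_of_nonneg_right _ hmt.le
    have e6 : 5 / (4 * (k : ℝ) ^ 2) = 5 * (1 / (4 * (k : ℝ) ^ 2)) := by ring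
    rw [e6]
    linarith
  rw [e4] at h1
  -- bound for the main term
  have hmt2 : mt k m ≤ 5 / 3 * ((k : ℝ) ^ (-(2 / 3) : ℝ) * M ^ (-(1 / 3) : ℝ)) := by
    have a1 : ((k : ℝ) + 1 / 6) ^ (-(2 / 3) : ℝ) ≤ (k : ℝ) ^ (-(2 / 3) : ℝ) :=
      rp_anti (by linarith) (by linarith)
    have a2 : ((m : ℝ) + 1 / 6) ^ (-(2 / 3) : ℝ) ≤ (M / 2) ^ (-(2 / 3) : ℝ) :=
      rp_anti (by positivity) (by rw [hM]; linarith)
    have a3 : (M / 2) ^ (-(2 / 3) : ℝ) ≤ 5 / 3 * M ^ (-(2 / 3) : ℝ) := by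
      rw [Real.div_rpow hMpos.le (by norm_num), Real.rpow_neg (by norm_num : (0:ℝ) ≤ 2),
        div_inv_eq_mul, mul_comm]
      apply mul_le_mul_of_nonneg_right _ (by positivity)
      have e : (2:ℝ) ^ (2/3 : ℝ) = ((2:ℝ) ^ (2:ℝ)) ^ (1/3 : ℝ) := by
        rw [← Real.rpow_mul (by norm_num)]; norm_num
      have e2 : (5/3:ℝ) = ((5/3:ℝ) ^ (3:ℝ)) ^ (1/3 : ℝ) := by
        rw [← Real.rpow_mul (by norm_num)]; norm_num
      rw [e, e2]
      apply Real.rpow_le_rpow (by positivity) _ (by norm_num)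
      norm_num
    have a4 : M ^ (-(2 / 3) : ℝ) * M ^ (1 / 3 : ℝ) = M ^ (-(1 / 3) : ℝ) := by
      rw [← Real.rpow_add hMpos]; norm_num
    unfold mt
    calc ((k : ℝ) + 1 / 6) ^ (-(2 / 3) : ℝ) * ((m : ℝ) + 1 / 6) ^ (-(2 / 3) : ℝ) *
          ((k : ℝ) + m + 1 / 3) ^ (1 / 3 : ℝ)
        ≤ (k : ℝ) ^ (-(2 / 3) : ℝ) * (5 / 3 * M ^ (-(2 / 3) : ℝ)) * M ^ (1 / 3 : ℝ) := by
          apply mul_le_mul_of_nonneg_right _ (by positivity)
          exact mul_le_mul a1 (a2.trans a3) (by positivity) (by positivity)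
      _ = 5 / 3 * ((k : ℝ) ^ (-(2 / 3) : ℝ) * (M ^ (-(2 / 3) : ℝ) * M ^ (1 / 3 : ℝ))) := by ring
      _ = _ := by rw [a4]
  have hk83 : 1 / (k : ℝ) ^ 2 * (k : ℝ) ^ (-(2 / 3) : ℝ) = (k : ℝ) ^ (-(8 / 3) : ℝ) := by
    have : (k : ℝ) ^ (-(8 / 3) : ℝ) = (k : ℝ) ^ (-(2 : ℝ)) * (k : ℝ) ^ (-(2 / 3) : ℝ) := by
      rw [← Real.rpow_add (by linarith)]; norm_num
    rw [this, Real.rpow_neg (by linarith)]
    norm_num
  have h3 : |bw (k + m) k * BB - ∫ t in (((k : ℝ) - 1 / 3) / M)..(((k : ℝ) + 2 / 3) / M), gd t| ≤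
      3 / (2 * (k : ℝ) ^ 2) * mt k m + 5 / (4 * (k : ℝ) ^ 2) * mt k m := by
    have := abs_sub_le (bw (k + m) k * BB) (mt k m)
      (∫ t in (((k : ℝ) - 1 / 3) / M)..(((k : ℝ) + 2 / 3) / M), gd t)
    rw [abs_sub_comm (mt k m)] at this
    linarith
  refine h3.trans ?_
  have e7 : 3 / (2 * (k : ℝ) ^ 2) * mt k m + 5 / (4 * (k : ℝ) ^ 2) * mt k m =
      11 / 4 * (1 / (k : ℝ) ^ 2) * mt k m := by
    field_simp; ring
  rw [e7]
  have hk2 : 0 ≤ 1 / (k : ℝ) ^ 2 := by positivity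
  calc 11 / 4 * (1 / (k : ℝ) ^ 2) * mt k m
      ≤ 11 / 4 * (1 / (k : ℝ) ^ 2) * (5 / 3 * ((k : ℝ) ^ (-(2 / 3) : ℝ) * M ^ (-(1 / 3) : ℝ))) :=
        mul_le_mul_of_nonneg_left hmt2 (by positivity)
    _ = 55 / 12 * (1 / (k : ℝ) ^ 2 * (k : ℝ) ^ (-(2 / 3) : ℝ)) * M ^ (-(1 / 3) : ℝ) := by ring
    _ = 55 / 12 * (k : ℝ) ^ (-(8 / 3) : ℝ) * M ^ (-(1 / 3) : ℝ) := by rw [hk83]
    _ ≤ _ := by
        apply mul_le_mul_of_nonneg_right _ (by positivity)
        apply mul_le_mul_of_nonneg_right _ (by positivity)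
        norm_num

/-- a telescoping bound -/
theorem step83 {x : ℝ} (hx : 1 ≤ x) :
    (x + 1) ^ (-(8 / 3) : ℝ) ≤ 3 / 5 * (x ^ (-(5 / 3) : ℝ) - (x + 1) ^ (-(5 / 3) : ℝ)) := by
  have hx0 : 0 < x := by linarith
  have hx1 : 0 < 1 / x := by positivity
  have h := one_add_mul_self_le_rpow_one_add (s := 1 / x) (by linarith) (p := 5 / 3) (by norm_num)
  have e1 : (1 + 1 / x) ^ (5 / 3 : ℝ) = (x + 1) ^ (5 / 3 : ℝ) * x ^ (-(5 / 3) : ℝ) := by
    have : 1 + 1 / x = (x + 1) / x := by field_simp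
    rw [this, Real.div_rpow (by linarith) hx0.le, Real.rpow_neg hx0.le]
    rfl
  rw [e1] at h
  have hp : 0 < (x + 1) ^ (-(5 / 3) : ℝ) := by positivity
  have h2 := mul_le_mul_of_nonneg_right h hp.le
  have e2 : (x + 1) ^ (5 / 3 : ℝ) * x ^ (-(5 / 3) : ℝ) * (x + 1) ^ (-(5 / 3) : ℝ) = x ^ (-(5 / 3) : ℝ) := by
    have : (x + 1) ^ (5 / 3 : ℝ) * (x + 1) ^ (-(5 / 3) : ℝ) = 1 := by
      rw [← Real.rpow_add (by linarith)]; norm_num
    calc _ = ((x + 1) ^ (5 / 3 : ℝ) * (x + 1) ^ (-(5 / 3) : ℝ)) * x ^ (-(5 / 3) : ℝ) := by ring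
      _ = _ := by rw [this, one_mul]
  rw [e2] at h2
  have e3 : (x + 1) ^ (-(8 / 3) : ℝ) = (x + 1) ^ (-(5 / 3) : ℝ) * (1 / (x + 1)) := by
    have : (x + 1) ^ (-(8 / 3) : ℝ) = (x + 1) ^ (-(5 / 3) : ℝ) * (x + 1) ^ (-(1 : ℝ)) := by
      rw [← Real.rpow_add (by linarith)]; norm_num
    rw [this, Real.rpow_neg_one, one_div]
  rw [e3]
  have h4 : 1 / (x + 1) ≤ 1 / x := one_div_le_one_div_of_le hx0 (by linarith)
  have h5 : (x + 1) ^ (-(5 / 3) : ℝ) * (1 / (x + 1)) ≤ (x + 1) ^ (-(5 / 3) : ℝ) * (1 / x) :=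
    mul_le_mul_of_nonneg_left h4 hp.le
  nlinarith

theorem sum83 {a : ℕ} (ha : 1 ≤ a) : ∀ h : ℕ, a ≤ h →
    ∑ k ∈ Ico (a + 1) (h + 1), (k : ℝ) ^ (-(8 / 3) : ℝ) ≤
      3 / 5 * ((a : ℝ) ^ (-(5 / 3) : ℝ) - (h : ℝ) ^ (-(5 / 3) : ℝ)) := by
  intro h hah
  induction h, hah using Nat.le_induction with
  | base => simp
  | succ h hah ih =>
    rw [sum_Ico_succ_top (by omega)]
    have hx : (1 : ℝ) ≤ h := by
      have : 1 ≤ h := le_trans ha hah
      exact_mod_cast this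
    have h1 := step83 hx
    push_cast
    linarith

/-- **the corrected comparison, one half** -/
theorem half_bound {a h : ℕ} (ha : 1 ≤ a) (hah : a ≤ h) :
    |Pool.Agent.H980R4.Rate.S a (2 * h + 1) - F (((a : ℝ) + 2 / 3) / (2 * h + 1 + 1 / 3))| ≤
      3 / 2 * ((a : ℝ) ^ (-(5 / 3) : ℝ) * ((2 : ℝ) * h + 1 + 1 / 3) ^ (-(1 / 3) : ℝ)) := by
  have ha' : (1 : ℝ) ≤ a := by exact_mod_cast ha
  set M : ℝ := (2 : ℝ) * h + 1 + 1 / 3 with hM
  have hMpos : 0 < M := by rw [hM]; positivity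
  set y : ℕ → ℝ := fun k => ((k : ℝ) + 2 / 3) / M with hy
  -- telescoping
  have t1 : Pool.Agent.H980R4.Rate.S h (2 * h + 1) - Pool.Agent.H980R4.Rate.S a (2 * h + 1) =
      ∑ k ∈ Ico (a + 1) (h + 1), bw (2 * h + 1) k := by
    unfold Pool.Agent.H980R4.Rate.S
    rw [← Finset.sum_range_add_sum_Ico _ (show a + 1 ≤ h + 1 by omega)]
    ring
  have t2 : F (y h) - F (y a) = ∑ k ∈ Ico (a + 1) (h + 1), (F (y k) - F (y (k - 1))) := by
    have : ∀ n : ℕ, a ≤ n → F (y n) - F (y a) = ∑ k ∈ Ico (a + 1) (n + 1), (F (y k) - F (y (k - 1))) := by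
      intro n hn
      induction n, hn using Nat.le_induction with
      | base => simp
      | succ n hn ih =>
        rw [sum_Ico_succ_top (by omega), ← ih]
        simp only [Nat.add_sub_cancel]
        ring
    exact this h hah
  have hyh : y h = 1 / 2 := by
    rw [hy]
    simp only
    rw [div_eq_iff hMpos.ne', hM]
    ring
  rw [hyh, F_half] at t2
  rw [S_half] at t1
  have e : Pool.Agent.H980R4.Rate.S a (2 * h + 1) - F (y a) =
      ∑ k ∈ Ico (a + 1) (h + 1), (-(bw (2 * h + 1) k - (F (y k) - F (y (k - 1))))) := by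
    rw [sum_neg_distrib, sum_sub_distrib, ← t1, ← t2]
    ring
  have hB := BB_ge
  have hBpos := BB_pos
  have hloc : ∀ k ∈ Ico (a + 1) (h + 1), |-(bw (2 * h + 1) k - (F (y k) - F (y (k - 1))))| ≤
      5 / 2 * M ^ (-(1 / 3) : ℝ) * (k : ℝ) ^ (-(8 / 3) : ℝ) := by
    intro k hk
    rw [mem_Ico] at hk
    have hk1 : 1 ≤ k := by omega
    have hk1' : (1 : ℝ) ≤ k := by exact_mod_cast hk1
    have hkh : (k : ℝ) ≤ h := by
      have : k ≤ h := by omega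
      exact_mod_cast this
    obtain ⟨m, hm⟩ : ∃ m, 2 * h + 1 = k + m := ⟨2 * h + 1 - k, by omega⟩
    have hl := loc (k := k) (m := m) hk1 (by omega)
    have hMk : (k : ℝ) + m + 1 / 3 = M := by
      rw [hM]
      have : ((2 * h + 1 : ℕ) : ℝ) = ((k + m : ℕ) : ℝ) := by rw [hm]
      push_cast at this
      linarith
    rw [hMk] at hl
    have hk0 : ((k - 1 : ℕ) : ℝ) = (k : ℝ) - 1 := by
      rw [Nat.cast_sub hk1]; norm_num
    have hyk : y (k - 1) = ((k : ℝ) - 1 / 3) / M := by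
      rw [hy]; simp only; rw [hk0]; congr 1; ring
    have hFs : F (y k) - F (y (k - 1)) =
        (∫ t in (((k : ℝ) - 1 / 3) / M)..(((k : ℝ) + 2 / 3) / M), gd t) / BB := by
      rw [hyk]
      apply F_sub
      · apply div_nonneg _ hMpos.le; linarith
      · apply div_le_div_of_nonneg_right _ hMpos.le; linarith
      · rw [div_le_one hMpos, hM]; linarith
    rw [abs_neg, hFs, hm]
    have e8 : bw (k + m) k - (∫ t in (((k : ℝ) - 1 / 3) / M)..(((k : ℝ) + 2 / 3) / M), gd t) / BB =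
        (bw (k + m) k * BB - ∫ t in (((k : ℝ) - 1 / 3) / M)..(((k : ℝ) + 2 / 3) / M), gd t) / BB := by
      field_simp
    rw [e8, abs_div, abs_of_pos hBpos, div_le_iff₀ hBpos]
    refine hl.trans ?_
    have hq : 0 ≤ M ^ (-(1 / 3) : ℝ) * (k : ℝ) ^ (-(8 / 3) : ℝ) := by positivity
    calc 5 * (k : ℝ) ^ (-(8 / 3) : ℝ) * M ^ (-(1 / 3) : ℝ)
        = 5 / 2 * (M ^ (-(1 / 3) : ℝ) * (k : ℝ) ^ (-(8 / 3) : ℝ)) * 2 := by ring
      _ ≤ 5 / 2 * (M ^ (-(1 / 3) : ℝ) * (k : ℝ) ^ (-(8 / 3) : ℝ)) * BB :=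
          mul_le_mul_of_nonneg_left hB (by positivity)
      _ = _ := by ring
  have hgoal : y a = ((a : ℝ) + 2 / 3) / M := rfl
  rw [← hgoal, e]
  refine (abs_sum_le_sum_abs _ _).trans ((sum_le_sum hloc).trans ?_)
  rw [← mul_sum]
  have h9 := sum83 ha h hah
  have h10 : 0 ≤ (h : ℝ) ^ (-(5 / 3) : ℝ) := by positivity
  have h11 : 0 ≤ M ^ (-(1 / 3) : ℝ) := by positivity
  calc 5 / 2 * M ^ (-(1 / 3) : ℝ) * ∑ k ∈ Ico (a + 1) (h + 1), (k : ℝ) ^ (-(8 / 3) : ℝ)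
      ≤ 5 / 2 * M ^ (-(1 / 3) : ℝ) * (3 / 5 * (a : ℝ) ^ (-(5 / 3) : ℝ)) := by
        apply mul_le_mul_of_nonneg_left _ (by positivity)
        linarith
    _ = _ := by ring

/-- **the corrected comparison** -/
theorem corrected {a b : ℕ} (ha : 1 ≤ a) (hb : 1 ≤ b) (hpar : Even (a + b)) :
    |Pool.Agent.H980R4.Rate.S a (a + b + 1) - F (((a : ℝ) + 2 / 3) / (a + b + 4 / 3))| ≤
      3 / 2 * (((min a b : ℕ) : ℝ) ^ (-(5 / 3) : ℝ) * ((a : ℝ) + b) ^ (-(1 / 3) : ℝ)) := by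
  obtain ⟨h, hh⟩ := hpar
  have ha' : (1 : ℝ) ≤ a := by exact_mod_cast ha
  have hb' : (1 : ℝ) ≤ b := by exact_mod_cast hb
  have hab : (a : ℝ) + b = 2 * h := by
    have : ((a + b : ℕ) : ℝ) = ((h + h : ℕ) : ℝ) := by rw [hh]
    push_cast at this
    linarith
  have key : ∀ a b : ℕ, 1 ≤ a → a ≤ b → a + b = h + h →
      |Pool.Agent.H980R4.Rate.S a (a + b + 1) - F (((a : ℝ) + 2 / 3) / (a + b + 4 / 3))| ≤
      3 / 2 * ((a : ℝ) ^ (-(5 / 3) : ℝ) * ((a : ℝ) + b) ^ (-(1 / 3) : ℝ)) := by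
    intro a b ha hle hs
    have h1 := half_bound (a := a) (h := h) ha (by omega)
    have ha' : (1 : ℝ) ≤ a := by exact_mod_cast ha
    have hab : (a : ℝ) + b = 2 * h := by
      have : ((a + b : ℕ) : ℝ) = ((h + h : ℕ) : ℝ) := by rw [hs]
      push_cast at this
      linarith
    have e1 : a + b + 1 = 2 * h + 1 := by omega
    have e2 : (a : ℝ) + b + 4 / 3 = 2 * h + 1 + 1 / 3 := by rw [hab]; ring
    rw [e1, e2]
    refine h1.trans ?_
    apply mul_le_mul_of_nonneg_left _ (by norm_num)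
    apply mul_le_mul_of_nonneg_left _ (by positivity)
    apply Real.rpow_le_rpow_of_nonpos _ _ (by norm_num)
    · rw [hab]
      have : 1 ≤ h := by omega
      have : (1 : ℝ) ≤ h := by exact_mod_cast this
      linarith
    · rw [hab]; linarith
  rcases le_total a b with hle | hle
  · rw [min_eq_left hle]
    exact key a b ha hle hh
  · rw [min_eq_right hle]
    have h1 := key b a hb hle (by omega)
    have e1 : b + a + 1 = a + b + 1 := by omega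
    rw [e1] at h1
    have e2 : ((a : ℝ) + 2 / 3) / (a + b + 4 / 3) = 1 - ((b : ℝ) + 2 / 3) / (b + a + 4 / 3) := by
      have : (a : ℝ) + b + 4 / 3 ≠ 0 := by positivity
      have : (b : ℝ) + a + 4 / 3 ≠ 0 := by positivity
      field_simp
      ring
    rw [S_symm, e2, F_symm (by positivity) (by
      rw [div_le_one (by positivity)]; linarith)]
    have e3 : 1 - Pool.Agent.H980R4.Rate.S b (a + b + 1) - (1 - F (((b : ℝ) + 2 / 3) / (b + a + 4 / 3))) =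
        -(Pool.Agent.H980R4.Rate.S b (a + b + 1) - F (((b : ℝ) + 2 / 3) / (b + a + 4 / 3))) := by ring
    rw [e3, abs_neg]
    refine h1.trans (le_of_eq ?_)
    rw [add_comm (b : ℝ)]

end Q292.CFS
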